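import Pool.Agent.Helper51_Equitable.Defs
import Pool.Agent.Helper7_CG.Hoff

/-!
# Squad HEC: equitable proper 3-labellings of graphs without small edge cuts (MP_3faef8_co)

Definitions.  A label is `2 + x` with `x ∈ {-1, 0, 1}`; the sum at a vertex is `2 * dg G v + bd x v`.
All graphs live on a finite type `V`, all edge functions are functions `V → V → ℤ` (or `ℝ`),
all counts of edges are counts of ordered pairs, that is twice the number of edges.
Every decidability instance is classical.
-/

set_option autoImplicit false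

open Finset

namespace Pool.Agent.HEC

open Classical in
/-- number of elements of a finite type with property `p` -/
noncomputable def cnt {α : Type} [Fintype α] (p : α → Prop) : ℕ := (univ.filter p).card

variable {V : Type}

/-- twice the number of edges -/
noncomputable def e2 [Fintype V] (G : SimpleGraph V) : ℕ := cnt fun p : V × V => G.Adj p.1 p.2

/-- number of edges of `G` between `W` and its complement -/
noncomputable def cut [Fintype V] (G : SimpleGraph V) (W : Finset V) : ℕ :=
  cnt fun p : V × V => p.1 ∈ W ∧ p.2 ∉ W ∧ G.Adj p.1 p.2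

/-- degree -/
noncomputable def dg [Fintype V] (G : SimpleGraph V) (v : V) : ℕ := cnt fun w => G.Adj v w

/-- edges of `G` whose ends have different values of `t` -/
def dif (G : SimpleGraph V) (t : V → Bool) : SimpleGraph V where
  Adj u v := G.Adj u v ∧ t u ≠ t v
  symm := ⟨fun _ _ h => ⟨h.1.symm, h.2.symm⟩⟩
  loopless := ⟨fun _ h => h.2 rfl⟩

/-- edges of `G` whose ends have the same value of `t` -/
def sam (G : SimpleGraph V) (t : V → Bool) : SimpleGraph V where
  Adj u v := G.Adj u v ∧ t u = t v
  symm := ⟨fun _ _ h => ⟨h.1.symm, h.2.symm⟩⟩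
  loopless := ⟨fun v h => G.loopless.irrefl v h.1⟩

/-- edges of `F` inside `U` -/
def res (F : SimpleGraph V) (U : Finset V) : SimpleGraph V where
  Adj u v := F.Adj u v ∧ u ∈ U ∧ v ∈ U
  symm := ⟨fun _ _ h => ⟨h.1.symm, h.2.2, h.2.1⟩⟩
  loopless := ⟨fun v h => F.loopless.irrefl v h.1⟩

/-- edges of `F` with property `¬ r` -/
def rem (F T : SimpleGraph V) : SimpleGraph V where
  Adj u v := F.Adj u v ∧ ¬ T.Adj u v
  symm := ⟨fun _ _ h => ⟨h.1.symm, fun h' => h.2 h'.symm⟩⟩
  loopless := ⟨fun v h => F.loopless.irrefl v h.1⟩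

/-- edges of `F` where the function `y` vanishes (in both directions) -/
def zer (F : SimpleGraph V) (y : V → V → ℤ) : SimpleGraph V where
  Adj u v := F.Adj u v ∧ y u v = 0 ∧ y v u = 0
  symm := ⟨fun _ _ h => ⟨h.1.symm, h.2.2, h.2.1⟩⟩
  loopless := ⟨fun v h => F.loopless.irrefl v h.1⟩

/-- boundary: sum of the values at `v` -/
def bd {R : Type} [AddCommMonoid R] [Fintype V] (x : V → V → R) (v : V) : R := ∑ w, x v w

/-- twice the number of edges with a non zero value -/
noncomputable def sz [Fintype V] (x : V → V → ℤ) : ℕ := cnt fun p : V × V => x p.1 p.2 ≠ 0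

/-- `x` is a symmetric function on the edges of `G` with values in `{-1, 0, 1}` -/
structure Lab (G : SimpleGraph V) (x : V → V → ℤ) : Prop where
  symm : ∀ u v, x u v = x v u
  supp : ∀ u v, ¬ G.Adj u v → x u v = 0
  rng : ∀ u v, -1 ≤ x u v ∧ x u v ≤ 1

/-- `x` is a symmetric real function on the edges of `G`, bounded by `K` -/
structure RLab (G : SimpleGraph V) (K : ℝ) (x : V → V → ℝ) : Prop where
  symm : ∀ u v, x u v = x v u
  supp : ∀ u v, ¬ G.Adj u v → x u v = 0
  rng : ∀ u v, |x u v| ≤ K

/-- four nested maximum cuts: `t1` is a maximum cut of `G`, `t2` of the rest, and so on -/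
structure Nest [Fintype V] (G : SimpleGraph V) where
  t1 : V → Bool
  t2 : V → Bool
  t3 : V → Bool
  t4 : V → Bool
  c1 : ∀ W : Finset V, cut (sam G t1) W ≤ cut (dif G t1) W
  c2 : ∀ W : Finset V, cut (sam (sam G t1) t2) W ≤ cut (dif (sam G t1) t2) W
  c3 : ∀ W : Finset V, cut (sam (sam (sam G t1) t2) t3) W ≤ cut (dif (sam (sam G t1) t2) t3) W
  c4 : ∀ W : Finset V, cut (sam (sam (sam (sam G t1) t2) t3) t4) W ≤
    cut (dif (sam (sam (sam G t1) t2) t3) t4) W

namespace Nest

variable [Fintype V] {G : SimpleGraph V} (N : Nest G)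

/-- first level (the cut graph) -/
def H : SimpleGraph V := dif G N.t1
/-- second level -/
def E2 : SimpleGraph V := dif (sam G N.t1) N.t2
/-- third level -/
def E3 : SimpleGraph V := dif (sam (sam G N.t1) N.t2) N.t3
/-- fourth level -/
def E4 : SimpleGraph V := dif (sam (sam (sam G N.t1) N.t2) N.t3) N.t4
/-- edges inside the 16 classes -/
def S : SimpleGraph V := sam (sam (sam (sam G N.t1) N.t2) N.t3) N.t4

end Nest

/-- `f` is an antisymmetric sign function on the edges of `S` -/
structure Ori (S : SimpleGraph V) (f : V → V → ℤ) : Prop where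
  anti : ∀ u v, f u v = - f v u
  one : ∀ u v, S.Adj u v → f u v = 1 ∨ f u v = -1
  supp : ∀ u v, ¬ S.Adj u v → f u v = 0

/-- sign of a side -/
def sg (b : Bool) : ℤ := if b = true then 1 else -1

/-- The result wanted from the flow part: a proper labelling `2 + x` with `∑ x = 0` and at least
`37` per cent of the edges with `x = 0`. -/
structure Good [Fintype V] (G : SimpleGraph V) (x : V → V → ℤ) : Prop where
  lab : Lab G x
  proper : ∀ u v, G.Adj u v → 2 * (dg G u : ℤ) + bd x u ≠ 2 * (dg G v : ℤ) + bd x v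
  tot : ∑ v, bd x v = 0
  few : 100 * sz x ≤ 63 * e2 G

/-! ### Multigraphs: edge type `E`, ends `s e`, `t e` -/

/-- all vertices except the root `o` (a separate type, with fixed instances) -/
def Idx (o : V) : Type := {v : V // v ≠ o}

/-- the vertex -/
def Idx.val {o : V} (i : Idx o) : V := Subtype.val i

noncomputable instance instFintypeIdx [Fintype V] (o : V) : Fintype (Idx o) := by
  classical
  exact inferInstanceAs (Fintype {v : V // v ≠ o})

noncomputable instance instDecEqIdx (o : V) : DecidableEq (Idx o) := Classical.decEq _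

section multi

variable {E : Type} [Fintype E] (s t : E → V)

open Classical in
/-- weight of the cut of `W` -/
noncomputable def mcut (k : E → ℝ) (W : Finset V) : ℝ :=
  ∑ e, if (s e ∈ W ∧ t e ∉ W) ∨ (s e ∉ W ∧ t e ∈ W) then k e else 0

/-- the set `T` of edges is connected and spanning: a function which is constant along the edges of
`T` is constant -/
def Conn (T : Finset E) : Prop :=
  ∀ p : V → ℝ, (∀ e ∈ T, p (s e) = p (t e)) → ∀ u v, p u = p v

variable (o : V)

open Classical in
/-- incidence vector of the edge `e` without the coordinate `o` -/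
noncomputable def chi (e : E) : Idx o → ℝ :=
  fun i => (if s e = i.val then 1 else 0) - (if t e = i.val then 1 else 0)

/-- reduced weighted Laplacian -/
noncomputable def lap (c : E → ℝ) : Matrix (Idx o) (Idx o) ℝ :=
  ∑ e, c e • Matrix.vecMulVec (chi s t o e) (chi s t o e)

end multi

/-- `(y1, y2, y3)` is a gadget of type `(p, q)`: alternating functions on `e + P`, `e + Q`, `P + Q` -/
structure Gad [Fintype V] (F : SimpleGraph V) (L p q : ℕ)
    (y : (V → V → ℤ) × (V → V → ℤ) × (V → V → ℤ)) : Prop where
  l1 : Lab F y.1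
  l2 : Lab F y.2.1
  l3 : Lab F y.2.2
  b1 : ∀ v, bd y.1 v = 0
  b2 : ∀ v, bd y.2.1 v = 0
  b3 : ∀ v, bd y.2.2 v = 0
  s1 : sz y.1 = 2 * (p + 1)
  s2 : sz y.2.1 = 2 * (q + 1)
  s3 : sz y.2.2 = 2 * (p + q)
  op : Odd p
  oq : Odd q
  lp : p ≤ L
  lq : q ≤ L

/-- the edge `uv` is used by the triple `y` -/
def used (y : (V → V → ℤ) × (V → V → ℤ) × (V → V → ℤ)) (u v : V) : Prop :=
  y.1 u v ≠ 0 ∨ y.2.1 u v ≠ 0 ∨ y.2.2 u v ≠ 0

/-- the length bound for the short paths inside a set of `n` vertices -/
def len (n : ℕ) : ℕ := 2 * Nat.log 2 n + 2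

end Pool.Agent.HEC
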