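import Pool.Agent.HEC.Defs

/-!
# Squad HEC: the rows

THEOREM.  Every finite graph in which every nonempty edge cut has at least 20000 edges has an
equitable proper labelling with the labels `1, 2, 3`.

All counts `e2`, `sz` are counts of ordered pairs (twice the number of edges), `cut G W` is the
number of edges between `W` and its complement.  `bd x v = ∑ w, x v w`.
-/

set_option autoImplicit false

open Finset Matrix

namespace Pool.Agent.HEC

/-! ## Block 1: cuts -/

/-- MCT (no hypotheses, easy-medium).  A maximum cut.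
PROOF. Let `t : V → Bool` maximise `e2 (dif G t)` (finitely many functions; `Finite.exists_max`).
Given `W` let `t' v = !(t v)` for `v ∈ W`, `t' v = t v` otherwise.  An adjacent pair `(u, v)` with both
ends in `W` or both ends outside has the same status for `t` and `t'`; a pair with exactly one end in
`W` changes its status.  The ordered pairs of `dif G t` with exactly one end in `W` are
`2 * cut (dif G t) W` many (swap), the same for `sam`.  So
`e2 (dif G t') = e2 (dif G t) - 2 * cut (dif G t) W + 2 * cut (sam G t) W`, and maximality gives the claim. -/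
def MctStmt : Prop := ∀ (V : Type) [Fintype V] (G : SimpleGraph V),
  ∃ t : V → Bool, ∀ W : Finset V, cut (sam G t) W ≤ cut (dif G t) W

/-- NST (uses MCT, easy).  Four nested maximum cuts: apply MCT to `G`, to `sam G t1`, and so on. -/
def NstStmt : Prop := ∀ (V : Type) [Fintype V] (G : SimpleGraph V), Nonempty (Nest G)

/-- CAP (no hypotheses, easy).  Capacities.
PROOF. For every graph `F` and `t`: `cut F W = cut (dif F t) W + cut (sam F t) W` (an adjacent pair
has either `t u = t v` or not).  Write `g0 = cut G W`, `g1 = cut (sam G t1) W`, ..., `g4 = cut S W`,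
`h = cut H W = g0 - g1`, and so on.  `c4 : g4 ≤ g3 - g4`, so `2 g4 ≤ g3`; `c3 : g3 ≤ g2 - g3`, so
`2 g3 ≤ g2`, `cut E3 W = g2 - g3 ≥ g3 ≥ 2 g4`; `2 g2 ≤ g1`, `cut E2 W ≥ g2 ≥ 4 g4`; `2 g1 ≤ g0`,
`cut H W ≥ g1 ≥ 8 g4`, and `g0 = cut H W + g1 ≤ 2 cut H W`. -/
def CapStmt : Prop := ∀ (V : Type) [Fintype V] (G : SimpleGraph V) (N : Nest G) (W : Finset V),
  8 * cut N.S W ≤ cut N.H W ∧ 4 * cut N.S W ≤ cut N.E2 W ∧ 2 * cut N.S W ≤ cut N.E3 W ∧
  cut N.S W ≤ cut N.E4 W ∧ cut G W ≤ 2 * cut N.H W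

/-- CNT (no hypotheses, easy).  Numbers of edges.
PROOF. `e2 F = e2 (dif F t) + e2 (sam F t)` for all `F`, `t`; four times.  `e2 F = ∑ v, cut F {v}`
(no loops), so `c1` for the sets `{v}` gives `e2 (sam G t1) ≤ e2 (dif G t1)`, hence the second claim. -/
def CntStmt : Prop := ∀ (V : Type) [Fintype V] (G : SimpleGraph V) (N : Nest G),
  e2 G = e2 N.H + e2 N.E2 + e2 N.E3 + e2 N.E4 + e2 N.S ∧ e2 G ≤ 2 * e2 N.H

/-! ## Block 2: flows in bipartite graphs -/

/-- FLO (no hypotheses, medium; use `Pool.Agent.CG.H7.hoff`).  Integral flow with capacity one.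
PROOF. Let `g v = sg (t v) * b v`.  For `W = univ` the hypothesis says `∑ g = 0`.  Apply `hoff` with
`N = Option V`; arcs: `(some u, some v)` with `E.Adj u v` and `t u = true` has `lo = -1`, `hi = 1`;
`(none, some v)` has `lo = hi = g v`; all other arcs `0, 0`.  Condition for `U`, with
`W = {v | some v ∈ U}`, `α = #{(u, v) | u ∈ W, v ∉ W, E.Adj u v, t u = true}`,
`β = #{(u, v) | u ∉ W, v ∈ W, E.Adj u v, t u = true}`, `α + β = cut E W`:
if `none ∉ U` it says `-α ≤ β + ∑ v ∈ W, g v`; if `none ∈ U` it says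
`-α + ∑ v ∉ W, g v ≤ β`, and `∑ v ∉ W, g v = - ∑ v ∈ W, g v`.  Both follow from the hypothesis.
`hoff` gives `f`; put `x u v = f (some u) (some v) + f (some v) (some u)` (at most one of the two
is not zero, because the ends of an edge have different `t`).  At `v` with `t v = true`:
`∑ w, f (some v) (some w) = g v = b v` and `f (some w) (some v) = 0`; at `v` with `t v = false`:
`0 = ∑ w, f (some w) (some v) + g v`, and `g v = - b v`. -/
def FloStmt : Prop := ∀ (V : Type) [Fintype V] (E : SimpleGraph V) (t : V → Bool) (b : V → ℤ),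
  (∀ u v, E.Adj u v → t u ≠ t v) →
  (∀ W : Finset V, |∑ v ∈ W, sg (t v) * b v| ≤ (cut E W : ℤ)) →
  ∃ x : V → V → ℤ, Lab E x ∧ ∀ v, bd x v = b v

/-- RND (no hypotheses, STRONG).  Rounding in a bipartite graph without raising `∑ |x|`.
PROOF. Strong induction on the number of pairs `(u, v)` with `x u v` not an integer.  If there is
none, take the integer values.  Otherwise let `P` be the (finite, nonempty) set of pairs `(u, v)`
with `t u = true` and `x u v` not an integer, `A` the set of vertices which are an end of a pair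
of `P`.  Every vertex of `A` lies on at least two pairs of `P` (the sum at the vertex is an integer), so
`2 |A| ≤ 2 |P|`.  The linear map `D : (P → ℝ) → (A → ℝ)`, `(D z) v` = sum of `z` over the pairs of `P`
at `v`, has its image in the subspace `∑ v, sg (t v) * (D z) v = 0` (every pair has one end
with `t = true` and one with `t = false`), which is not everything; so the rank is `< |A| ≤ |P|`
and `D` has a kernel element `z ≠ 0`.  Extend it to a symmetric function on `V`, with
`bd z = 0`.  Consider `x + τ z`.  For the pairs with `z ≠ 0` (all fractional) the values stay in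
`[⌊x⌋, ⌊x⌋ + 1]` for `τ` in a closed interval `[-α, β]`, `α, β > 0` maximal; on this interval every
`|x + τ z|` is affine in `τ` (on `[k, k+1]` the function `|.|` is affine), so `∑ |x + τ z|` is
affine and at one of the two end points it is `≤` its value at `0`.  At the end point some pair has
become an integer and no integer has been destroyed.  Bounds: integers `-1, 0, 1` bound the
intervals, so `|x + τ z| ≤ 1`.  Induct.  (To avoid intervals: choose the sign of `z` so that the
one-sided slope of `∑ |x + τ z|` at `τ = 0`, `τ > 0`, is `≤ 0`, and take `β` as the minimum over the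
finitely many pairs with `z ≠ 0` of the time at which the next integer is reached.) -/
def RndStmt : Prop := ∀ (V : Type) [Fintype V] (E : SimpleGraph V) (t : V → Bool) (x : V → V → ℝ)
    (b : V → ℤ),
  (∀ u v, E.Adj u v → t u ≠ t v) → RLab E 1 x → (∀ v, bd x v = (b v : ℝ)) →
  ∃ x' : V → V → ℤ, Lab E x' ∧ (∀ v, bd x' v = b v) ∧
    ((∑ u, ∑ v, |x' u v| : ℤ) : ℝ) ≤ ∑ u, ∑ v, |x u v|

/-- SGN (no hypotheses, easy).
PROOF. `∑ v ∈ W, sg (t v) * bd f v = ∑ v ∈ W, ∑ w ∈ W, sg (t v) * f v w + ∑ v ∈ W, ∑ w ∉ W, ...`.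
The first double sum equals its own negative (swap `v`, `w`; where `f v w ≠ 0` we have `S.Adj v w`,
so `t v = t w`), so it is `0`.  In the second every term has absolute value at most
`1` and vanishes unless `S.Adj v w`. -/
def SgnStmt : Prop := ∀ (V : Type) [Fintype V] (S : SimpleGraph V) (t : V → Bool) (f : V → V → ℤ)
    (W : Finset V), Ori S f → (∀ u v, S.Adj u v → t u = t v) →
  |∑ v ∈ W, sg (t v) * bd f v| ≤ (cut S W : ℤ)

/-! ## Block 3: small real flows in every coset (Lemma A) -/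

/-- MST (no hypotheses, STRONG).  A cheap spanning tree.
PROOF. Induction on `Fintype.card V`.  Card 1: `T = ∅`.  Card at least 2: some cut is positive, so
there is an edge with `s e ≠ t e`; let `e0` be one with the least `w`, `w0 = w e0`.  Put
`w' e = w e - w0` if `s e ≠ t e`, and `w' e = w e` for loops; `w' ≥ 0`.  Identify `t e0` with
`s e0`: `V' = {v // v ≠ t e0}`, `π v = s e0` if `v = t e0` and `π v = v` otherwise, `s' = π ∘ s`,
`t' = π ∘ t`, the same `k`.  For `W' ⊆ V'` nonempty, not everything, `W = π⁻¹ W'` is nonempty and not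
everything and `mcut s' t' k W' = mcut s t k W`, so the hypothesis holds for `V'`.  Induction:
`T'` without loops of `V'`.  `e0` is a loop of `V'`, so `e0 ∉ T'`.  `T = T' ∪ {e0}`: card is right; no
loops of `V`; connected: if `p` is constant along the edges of `T`, then `p (t e0) = p (s e0)`, `p` factors
through `π`, so `p` is constant.  Weights: `∑ T w = ∑ T' w' + (card V - 2) w0 + w0`,
`lam * ∑ T' w' ≤ 2 ∑ k w' = 2 ∑ k w - 2 w0 ∑ (e not a loop) k e`, and
`2 ∑ (e not a loop) k e = ∑ v, mcut {v} ≥ lam * card V` (`{v} ≠ univ` since card V ≥ 2).  So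
`lam ∑ T w ≤ 2 ∑ k w - lam (card V) w0 + lam (card V - 1) w0 ≤ 2 ∑ k w`. -/
def MstStmt : Prop := ∀ (V E : Type) [Fintype V] [Fintype E] [Nonempty V] (s t : E → V)
    (k w : E → ℝ) (lam : ℝ),
  0 < lam → (∀ e, 0 ≤ k e) → (∀ e, 0 ≤ w e) →
  (∀ W : Finset V, W.Nonempty → W ≠ univ → lam ≤ mcut s t k W) →
  ∃ T : Finset E, (∀ e ∈ T, s e ≠ t e) ∧ T.card + 1 = Fintype.card V ∧ Conn s t T ∧
    lam * ∑ e ∈ T, w e ≤ 2 * ∑ e, k e * w e

/-- RK1 (no hypotheses, easy).  Matrix determinant lemma (`Matrix.det_add_replicateCol_mul_replicateRow`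
or `Matrix.det_one_add_mul_comm`; `A` is invertible) and positivity of `A⁻¹` (`Matrix.PosDef.inv`). -/
def Rk1Stmt : Prop := ∀ (I : Type) [Fintype I] [DecidableEq I] (A : Matrix I I ℝ) (x : I → ℝ) (a : ℝ),
  A.PosDef →
  (A + a • vecMulVec x x).det = A.det * (1 + a * (x ⬝ᵥ (A⁻¹ *ᵥ x))) ∧ 0 ≤ x ⬝ᵥ (A⁻¹ *ᵥ x)

/-- DLB (uses RK1, STRONG).  Lower bound for the determinant of the reduced Laplacian.
PROOF. `T` and `Idx o` have the same number of elements; fix a bijection.  Let `B` be the square matrix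
with the rows `chi e`, `e ∈ T`.  It is the image of an integral matrix.  If `B p = 0`, extend `p` by
`p o = 0`; then `p (s e) = p (t e)` for `e ∈ T`, so `p` is constant (`Conn`), so `0`.  Hence `det B ≠ 0`,
`det B` is an integer, `(det B)² ≥ 1`.  `L_T = ∑ e ∈ T, c e • χ χᵀ = Bᵀ diag(c) B` is positive definite and has
the determinant `(det B)² ∏ c ≥ ∏ c`.  Add the edges outside `T` one by one
(`Finset.induction`): each step adds `c e • χ χᵀ`, keeps positive definiteness, and by RK1 multiplies the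
determinant by `1 + c e * (...) ≥ 1`. -/
def DlbStmt : Prop := ∀ (V E : Type) [Fintype V] [Fintype E] (s t : E → V) (o : V) (T : Finset E)
    (c : E → ℝ),
  (∀ e, 0 < c e) → T.card + 1 = Fintype.card V → Conn s t T →
  (lap s t o c).PosDef ∧ ∏ e ∈ T, c e ≤ (lap s t o c).det

/-- MIN (uses MST DLB RK1, STRONG).  Conductances with leverage scores at most `eta * k e`.
PROOF. For `c : E → ℝ` with `0 < c e ≤ 1` put `G c = det (lap c) / ∏ e, (c e) ^ (eta * k e)` (real
powers).  LOWER BOUND: MST with `w e = - log (c e) ≥ 0` gives `T` with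
`∑ T w ≤ (2 / lam) ∑ k w`, so `∏ T c ≥ ∏ e (c e) ^ (2 * k e / lam)`, so by DLB
`G c ≥ ∏ e, (c e) ^ (-(eta - 2 / lam) * k e)`; all exponents are negative and all `c e ≤ 1`, so
`G c ≥ (c e) ^ (-(eta - 2 / lam) * k e)` for every single `e`.  Choose `0 < ε < 1` with
`ε ^ (-(eta - 2 / lam) * k e) > G 1` for all `e` (finitely many).  `G` is continuous on the compact box
`[ε, 1]^E` (the determinant is a polynomial in the entries), so it has a minimum there, at `c`;
`G c ≤ G 1` (the constant function `1` is in the box), so `c e > ε` for all `e`.  `lap c` is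
positive definite by DLB (a tree exists by MST with `w = 0`).  Fix `e` and replace `c e` by
`(1 - τ) c e`, `τ > 0` small: this stays in the box.  By RK1 with `a = - τ c e` the determinant is
multiplied by `1 - τ l`, `l = c e * (χ ⬝ L⁻¹ χ)`, and the denominator by `(1 - τ) ^ (eta * k e)`.
Minimality: `1 - τ l ≥ (1 - τ) ^ (eta * k e)` for all small `τ > 0`; both sides are `1` at `τ = 0`, so
comparing the derivatives at `0` gives `- l ≥ - eta * k e`.  If `E` is empty or `V = {o}` everything is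
trivial (the same proof works: `Idx o` is empty, `det = 1`, `l = 0`). -/
def MinStmt : Prop := ∀ (V E : Type) [Fintype V] [Fintype E] (s t : E → V) (k : E → ℝ)
    (lam eta : ℝ) (o : V),
  0 < lam → (∀ e, 0 < k e) → (∀ W : Finset V, W.Nonempty → W ≠ univ → lam ≤ mcut s t k W) →
  2 < eta * lam →
  ∃ c : E → ℝ, (∀ e, 0 < c e) ∧ (lap s t o c).PosDef ∧
    ∀ e, c e * (chi s t o e ⬝ᵥ ((lap s t o c)⁻¹ *ᵥ chi s t o e)) ≤ eta * k e

/-- CST (no hypotheses, medium).  Minimal energy in a coset.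
PROOF. Let `q b = b ⬝ A⁻¹ b`.  `A⁻¹` is positive definite, so there is `μ > 0` with `μ * b i ^ 2 ≤ q b` for all
real `b` and all `i` (compactness of the unit sphere, or Cauchy-Schwarz
`(b i)² ≤ (A i i) * q b`).  So for every `C` only finitely many integral `b` have `q b ≤ C`, and the
nonempty set `{b | ∀ i, M ∣ b i - r i}` (it contains `r`) has an element with the least `q`.  For `z`
the vector `b + M z` is in the set. -/
def CstStmt : Prop := ∀ (I : Type) [Fintype I] [DecidableEq I] (A : Matrix I I ℝ) (M : ℕ) (r : I → ℤ),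
  A.PosDef →
  ∃ b : I → ℤ, (∀ i, (M : ℤ) ∣ b i - r i) ∧ ∀ z : I → ℤ,
    (fun i => (b i : ℝ)) ⬝ᵥ (A⁻¹ *ᵥ fun i => (b i : ℝ)) ≤
      (fun i => (b i : ℝ) + M * z i) ⬝ᵥ (A⁻¹ *ᵥ fun i => (b i : ℝ) + M * z i)

open Classical in
/-- THA (uses MIN CST, medium-strong).  LEMMA A.
PROOF. `V` empty: trivial (`E` is empty).  Otherwise fix `o`.  MIN gives `c`; let `A = lap s t o c`.
CST gives `b` on `Idx o`, congruent to `r`; put `b o = - ∑ (v ≠ o) b v`, congruent to `r o` because
`M ∣ ∑ r`.  Let `φ = A⁻¹ b`, `y e = c e * (χ_e ⬝ φ)`.  For `z = χ_e` (integral) and `z = - χ_e`: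
`q (b ± M χ) = q b ± 2 M (χ ⬝ A⁻¹ b) + M² (χ ⬝ A⁻¹ χ)` (`A⁻¹` symmetric), so
`|χ_e ⬝ φ| ≤ (M / 2) (χ_e ⬝ A⁻¹ χ_e)` and `|y e| ≤ (M / 2) * eta * k e` by MIN.  Boundary: for `v ≠ o` the
coordinate `v` of `∑ e, y e • χ_e = ∑ e, c e (χ_e ⬝ φ) χ_e = A φ = b` is the claim.  For `v = o`: the
sum over all `v` of the left sides is `0` (every edge has one `s` and one `t`), so the left side at
`o` is `- ∑ (v ≠ o) b v = b o`.  (`M = 0` is allowed and harmless in CST; here `M ≥ 1`.) -/
def ThaStmt : Prop := ∀ (V E : Type) [Fintype V] [Fintype E] (s t : E → V) (k : E → ℝ)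
    (lam eta : ℝ) (M : ℕ) (r : V → ℤ),
  0 < lam → (∀ e, 0 < k e) → (∀ W : Finset V, W.Nonempty → W ≠ univ → lam ≤ mcut s t k W) →
  2 < eta * lam → 0 < M → (M : ℤ) ∣ ∑ v, r v →
  ∃ (b : V → ℤ) (y : E → ℝ), (∀ v, (M : ℤ) ∣ b v - r v) ∧ ∑ v, b v = 0 ∧
    (∀ e, |y e| ≤ M / 2 * (eta * k e)) ∧
    ∀ v, (∑ e, if s e = v then y e else 0) - (∑ e, if t e = v then y e else 0) = (b v : ℝ)

/-- TWO (uses THA, medium-strong).  Lemma A on one side of a bipartite graph.
PROOF. Let `S = {v // t v = true}` and `E = {(w, u, u') // t w = false ∧ H.Adj w u ∧ H.Adj w u'}` with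
`s = u`, `t = u'` (elements of `S`), `k = 1 / dg H w > 0`.  CUTS: for `W ⊆ S` nonempty, `≠ S`, and `w` with
`t w = false` let `d = dg H w`, `a` = number of neighbours of `w` in `W`; the triples of `w` crossing `W` are
`2 a (d - a)` many, so `mcut W = ∑ w, 2 a (d - a) / d ≥ ∑ w, min a (d - a)` (`max a (d - a) ≥ d / 2`).
Let `W' = W ∪ {w | t w = false, d - a < a}`; it is nonempty and not everything, and every edge of
`H` between `W'` and its complement is an edge `(w, u)` counted in `min a (d - a)`, so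
`∑ w, min a (d - a) = cut H W' ≥ L`.  THA (lam = L; residues `r` on `S`) gives `b`, `y` with
`|y| ≤ (M / 2) eta / dg H w`.  Put `b = 0` on the vertices with `t = false` and
`x u w = x w u = ∑ u', (y (w, u, u') - y (w, u', u))` for `H.Adj w u`, `t w = false` (and `0` elsewhere).
`|x u w| ≤ dg H w * 2 * (M / 2) eta / dg H w = M eta`.  Sum at `w` (`t w = false`):
`∑ u, ∑ u', (y (w,u,u') - y (w,u',u)) = 0`.  Sum at `u` (`t u = true`):
`∑ w, ∑ u', ... = (∑ e, s e = u) y e - (∑ e, t e = u) y e = b u`.  `S` empty: `b = 0`, `x = 0`. -/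
def TwoStmt : Prop := ∀ (V : Type) [Fintype V] (H : SimpleGraph V) (t : V → Bool) (L eta : ℝ)
    (M : ℕ) (r : V → ℤ),
  (∀ u v, H.Adj u v → t u ≠ t v) → 0 < L →
  (∀ W : Finset V, W.Nonempty → W ≠ univ → L ≤ (cut H W : ℝ)) →
  2 < eta * L → 0 < M → (M : ℤ) ∣ ∑ v, (if t v = true then r v else 0) →
  ∃ (b : V → ℤ) (x : V → V → ℝ), (∀ v, t v = false → b v = 0) ∧
    (∀ v, t v = true → (M : ℤ) ∣ b v - r v) ∧ ∑ v, b v = 0 ∧ RLab H (M * eta) x ∧
    ∀ v, bd x v = (b v : ℝ)

/-- TW2 (uses TWO, easy).  Both sides: apply TWO to `t` and to `fun v => !(t v)` and add. -/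
def Tw2Stmt : Prop := ∀ (V : Type) [Fintype V] (H : SimpleGraph V) (t : V → Bool) (L eta : ℝ)
    (M : ℕ) (r : V → ℤ),
  (∀ u v, H.Adj u v → t u ≠ t v) → 0 < L →
  (∀ W : Finset V, W.Nonempty → W ≠ univ → L ≤ (cut H W : ℝ)) →
  2 < eta * L → 0 < M → (M : ℤ) ∣ ∑ v, (if t v = true then r v else 0) →
  (M : ℤ) ∣ ∑ v, (if t v = true then 0 else r v) →
  ∃ (b : V → ℤ) (x : V → V → ℝ), (∀ v, (M : ℤ) ∣ b v - r v) ∧ ∑ v, b v = 0 ∧
    RLab H (2 * M * eta) x ∧ ∀ v, bd x v = (b v : ℝ)

/-! ## Block 4: residues, potential, realisation -/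

/-- RES (no hypotheses, medium).  Residues modulo 18 for 16 classes.
PROOF. Among the vertices with `t1 = true` one of the 8 classes (values of `t2, t3, t4`) has at least
17 elements (`8 * 16 < 136`), the same for `t1 = false`; call them `K` and `K'`.  Take an injective
map `ρ` from the 16 classes to `{0, 2, 4, 5, ..., 17}` with `ρ K = 0`, `ρ K' = 2`.  Let `c0 v = ρ (class of v)`
and `a' = ∑ (t1 v) (c0 v - a v)`.  Choose `q ∈ {0, ..., 17}` with `18 ∣ a' + q` and raise `c0` by one at `q`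
vertices of `K` (residues `0, 1`); the same with `K'` (residues `2, 3`).  Different classes have disjoint
sets of residues in `{0, ..., 17}`. -/
def ResStmt : Prop := ∀ (V : Type) [Fintype V] (t1 t2 t3 t4 : V → Bool) (a : V → ℤ),
  136 ≤ cnt (fun v => t1 v = true) → 136 ≤ cnt (fun v => t1 v = false) →
  ∃ c : V → ℤ,
    (∀ u v, ¬ (t1 u = t1 v ∧ t2 u = t2 v ∧ t3 u = t3 v ∧ t4 u = t4 v) → ¬ (18 : ℤ) ∣ c u - c v) ∧
    (18 : ℤ) ∣ ∑ v, (if t1 v = true then c v - a v else 0) ∧
    (18 : ℤ) ∣ ∑ v, (if t1 v = true then 0 else c v - a v)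

/-- POT (no hypotheses, easy-medium).  The antisymmetric potential.
PROOF. There are finitely many `f` with `Ori S f` (values in `{-1, 0, 1}`), and at least one (an
arbitrary linear order of `V`).  Let `f` maximise `∑ v, (φ v + 9 * bd f v) ^ 2`.  Let `S.Adj u v`; by symmetry
`f u v = 1`.  Let `f'` be `f` with `f' u v = -1`, `f' v u = 1`.  It changes the value at `u` by `-18` and
at `v` by `+18`, nothing else, so with `X`, `Y` the values of `f` at `u`, `v`:
`(X - 18)² + (Y + 18)² ≤ X² + Y²`, i.e. `X ≥ Y + 18`. -/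
def PotStmt : Prop := ∀ (V : Type) [Fintype V] (S : SimpleGraph V) (φ : V → ℤ),
  ∃ f : V → V → ℤ, Ori S f ∧ ∀ u v, S.Adj u v → φ u + 9 * bd f u ≠ φ v + 9 * bd f v

/-- REA (uses CAP CNT FLO RND SGN, medium-strong).  Realisation.
PROOF. Every edge of `N.S` has ends with equal `t1, t2, t3, t4`.  By SGN and CAP, for all `W`:
`|∑ W sg (t1) 8 bd f| ≤ 8 cut S W ≤ cut H W`, `|∑ W sg (t2) 4 bd f| ≤ cut E2 W`,
`|∑ W sg (t3) 2 bd f| ≤ cut E3 W`, `|∑ W sg (t4) bd f| ≤ cut E4 W`.  FLO gives integral `y1` on `H` with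
boundary `8 bd f`, `x2` on `E2` with `4 bd f`, `x3` on `E3` with `2 bd f`, `x4` on `E4` with `bd f`.
`y1 / 4 + x0` is a real function on `H`, bounded by `1/4 + 1/100 = 0.26`, with the integral boundary
`b + 2 bd f`; RND (with `t1`) gives `x1` on `H` with this boundary and
`sz x1 = ∑ ∑ |x1| ≤ 0.26 * e2 H`.  `x = x1 + x2 + x3 + x4` (disjoint supports, all edges of `G`) has
the boundary `b + (2 + 4 + 2 + 1) bd f` and
`sz x ≤ 0.26 e2 H + e2 E2 + e2 E3 + e2 E4 ≤ e2 G - 0.74 e2 H ≤ 0.63 e2 G` by CNT. -/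
def ReaStmt : Prop := ∀ (V : Type) [Fintype V] (G : SimpleGraph V) (N : Nest G) (f : V → V → ℤ)
    (b : V → ℤ) (x0 : V → V → ℝ),
  Ori N.S f → RLab N.H (1 / 100) x0 → (∀ v, bd x0 v = (b v : ℝ)) →
  ∃ x : V → V → ℤ, Lab G x ∧ (∀ v, bd x v = b v + 9 * bd f v) ∧ 100 * sz x ≤ 63 * e2 G

/-- CON (uses NST CAP TW2 RES POT REA, medium-strong).  The connected case without the exact counts.
PROOF. If `V` has at most one element there is no edge and `x = 0`.  Let `N` be a nest (NST).  For
`W` nonempty, `≠ univ`: `cut H W ≥ cut G W / 2 ≥ 10000` (CAP).  For any vertex `v`, `cut H {v}` is the number of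
its `H`-neighbours, all on the other side of `t1`; so both sides are nonempty and have at least
`10000 ≥ 136` vertices.  RES with `a v = 2 dg G v + 9 dg S v` gives `c`.  TW2 with `H`, `t1`, `L = 10000`,
`eta = 1 / 4000`, `M = 18`, `r v = c v - a v` gives `b ≡ r` mod 18, `∑ b = 0`, and `x0` on `H` bounded by
`36 / 4000 ≤ 1 / 100` with boundary `b`.  POT with `S = N.S`, `φ v = 2 dg G v + b v` gives `f`.  REA gives `x`
with `bd x = b + 9 bd f`.  PROPER: for an edge of `N.S` this is POT.  Let `u v` be an edge of `G` outside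
`N.S`: not all of `t1, ..., t4` agree, so `18 ∤ c u - c v`.  `bd f v ≡ dg S v` mod 2 (sum of `dg S v` signs), so
`9 bd f v ≡ 9 dg S v` mod 18 and `2 dg G v + bd x v = 2 dg G v + b v + 9 bd f v ≡ 2 dg G v + c v - a v + 9 dg S v
= c v` mod 18.  So the two sums differ.  TOTAL: `∑ bd x = ∑ b + 9 ∑ bd f = 0` (`f` antisymmetric). -/
def ConStmt : Prop := ∀ (V : Type) [Fintype V] (G : SimpleGraph V),
  (∀ W : Finset V, W.Nonempty → W ≠ univ → 20000 ≤ cut G W) → ∃ x : V → V → ℤ, Good G x

/-- UNI (uses CON, medium).  All graphs, component by component.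
PROOF. For a connected component `K` let `V_K` be the subtype of its vertices and `G_K` the induced
graph.  For `W ⊆ V_K` nonempty, `≠ univ`, let `W'` be its image in `V`; edges of `G` from `W'` to the outside stay
in `K`, so `cut G W' = cut G_K W`, and it is not `0` because the component is connected (a walk from
a point of `W` to a point outside `W` leaves `W`).  So it is at least `20000` and CON gives `x_K`.
Put `x u v = x_K u v` if `u`, `v` are in the same component `K`, else `0`.  Sums at a vertex, degrees: only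
the component matters.  `∑ v bd x v = ∑ K ∑ V_K bd x_K = 0`, `sz x = ∑ K sz x_K`, `e2 G = ∑ K e2 G_K`. -/
def UniStmt : Prop := ∀ (V : Type) [Fintype V] (G : SimpleGraph V),
  (∀ W : Finset V, cut G W = 0 ∨ 20000 ≤ cut G W) → ∃ x : V → V → ℤ, Good G x

/-! ## Block 5: exact counts -/

/-- BAL (no hypotheses, STRONG).  A ball with many edges.
PROOF. Among the nonempty subsets `U'` of `U` with `2 c |U'| ≤ e2 (res F U')` (`U` is one, since
`res F U = F`) take one of minimal cardinality.  Every `v ∈ U'` has more than... at least `c` neighbours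
in `U'`: if `|U'| ≥ 2` then `U' \ {v}` is not in the family, so
`e2 (res F U') - 2 deg v = e2 (res F (U' \ {v})) < 2 c (|U'| - 1)`, hence `deg v ≥ c` (indeed `> c`);
`|U'| = 1` is impossible (`e2 = 0 < 2 c`).  Fix `v ∈ U'` and let `B r` be the set of the `w ∈ U'` with a walk of
length at most `r` from `v` in `res F U'`.  `|B 0| = 1`.  If `|B (r+1)| > 2 |B r|` for all
`r ≤ K := Nat.log 2 |U|`, then `|B (K+1)| ≥ 2 ^ (K+1) > |U|`, impossible.  So there is `r ≤ K` with
`|B (r+1)| ≤ 2 |B r|`; let `B = B (r+1)`.  The neighbours in `U'` of a point of `B r` are in `B`, so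
`e2 (res F B) ≥ c |B r| ≥ c |B| / 2`.  A walk of length at most `r + 1` from `v` in `res F U'` visits only
points of `B`, so it is a walk in `res F B`; `r + 1 ≤ K + 1`. -/
def BalStmt : Prop := ∀ (V : Type) [Fintype V] (F : SimpleGraph V) (U : Finset V) (c : ℕ),
  (∀ u v, F.Adj u v → u ∈ U) → U.Nonempty → 0 < c → 2 * c * U.card ≤ e2 F →
  ∃ (B : Finset V) (v : V), v ∈ B ∧ B ⊆ U ∧ c * B.card ≤ 2 * e2 (res F B) ∧
    ∀ w ∈ B, ∃ p : (res F B).Walk v w, p.length ≤ Nat.log 2 U.card + 1

/-- TRE (no hypotheses, medium).  A breadth first tree.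
PROOF. For `w ∈ B` let `δ w ≤ R` be the distance from `v` in `res F B`.  For `w ∈ B`, `w ≠ v`, the last but
one vertex of a shortest walk is a neighbour `π w ∈ B` with `δ (π w) = δ w - 1`.  `T` has the edges
`w — π w`, `w ∈ B \ {v}`: at most `|B|` edges, so `e2 T ≤ 2 |B|`.  Following `π` gives a `T`-walk of length
`δ w` from `w` to `v` (induction on `δ w`); reverse it. -/
def TreStmt : Prop := ∀ (V : Type) [Fintype V] (F : SimpleGraph V) (B : Finset V) (v : V) (R : ℕ),
  v ∈ B → (∀ w ∈ B, ∃ p : (res F B).Walk v w, p.length ≤ R) →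
  ∃ T : SimpleGraph V, (∀ u w, T.Adj u w → (res F B).Adj u w) ∧ e2 T ≤ 2 * B.card ∧
    ∀ w ∈ B, ∃ p : T.Walk v w, p.length ≤ R

open Classical in
/-- PTH (no hypotheses, medium).  Alternating function on a path.
PROOF. Take a path `u = p 0, p 1, ..., p q = v` of length `q ≤ R` (`Walk.toPath`), all vertices
different.  `t` alternates along it and `t u ≠ t v`, so `q` is odd.  `y` is `(-1)^i` on the edge
`p i — p (i+1)`, in both directions, `0` elsewhere: `q` edges, `sz y = 2 q`; at an inner vertex the two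
values cancel, at `u` the value is `1`, at `v` it is `(-1)^(q-1) = 1`.  (Induction on the path from the end
`u`: for `u — u' ⋯ v`, remove the first edge, the rest is a path from `u'` avoiding `u`; state the induction
for arbitrary parity with boundary `1` at `u`, `-(-1)^q` at `v`, and negate.) -/
def PthStmt : Prop := ∀ (V : Type) [Fintype V] (T : SimpleGraph V) (t : V → Bool) (u v : V) (R : ℕ),
  (∀ a b, T.Adj a b → t a ≠ t b) → t u ≠ t v → (∃ p : T.Walk u v, p.length ≤ R) →
  ∃ (y : V → V → ℤ) (q : ℕ), Lab T y ∧ Odd q ∧ q ≤ R ∧ sz y = 2 * q ∧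
    ∀ w, bd y w = (if w = u then 1 else 0) + (if w = v then 1 else 0)

/-- GAD (uses MCT BAL TRE PTH, medium-strong).  A gadget.
PROOF. MCT gives `t` with `e2 (sam F t) ≤ e2 (dif F t)` (sum over the sets `{v}`, as in CNT), so
`F' = dif F t` has `e2 F' ≥ 48 |U|`.  BAL (`c = 24`): `B1 ⊆ U`, `v1`, `24 |B1| ≤ 2 e2 (res F' B1)`.  TRE:
`T1` inside `res F' B1`, `e2 T1 ≤ 2 |B1|`.  `F'' = rem (res F' B1) T1` has `e2 F'' ≥ 12 |B1| - 2 |B1| = 10 |B1|`.
BAL for `F''`, `U := B1`, `c = 5`: `B2 ⊆ B1`, `v2`, `5 |B2| ≤ 2 e2 (res F'' B2)`.  TRE: `T2` inside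
`res F'' B2`, `e2 T2 ≤ 2 |B2| < e2 (res F'' B2)`.  So there is an edge `u v` of `res F'' B2` which is not in
`T2` (and not in `T1`).  `T1` has a walk from `u` to `v` through `v1` of length at most
`2 (Nat.log 2 |U| + 1) = len |U|`, `T2` one through `v2`, also at most `len |U|`.  PTH for `T1` and
`T2` gives `yP`, `p` and `yQ`, `q` with boundary `1` at `u` and `v`; let `yE` be `1` on the edge `u v`.  The three
supports are disjoint and inside `F`.  The gadget is `(yP - yE, yQ - yE, yP - yQ)`. -/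
def GadStmt : Prop := ∀ (V : Type) [Fintype V] (F : SimpleGraph V) (U : Finset V),
  (∀ u v, F.Adj u v → u ∈ U) → U.Nonempty → 96 * U.card ≤ e2 F →
  ∃ (p q : ℕ) (y : (V → V → ℤ) × (V → V → ℤ) × (V → V → ℤ)), Gad F (len U.card) p q y

/-- SAM (uses GAD, medium-strong).  `2 K` disjoint gadgets of the same type.
PROOF. First `n := 2 K (L+1)²` disjoint gadgets of any types: induction on the number `j ≤ n`; if `j`
gadgets are chosen, remove all used edges from `F`; a gadget uses at most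
`sz y1 + sz y2 + sz y3 = 4 (p + q + 1) ≤ 4 (2 L + 1)` ordered pairs, so at least
`e2 F - 4 (2 L + 1) j ≥ 96 |U|` remain as long as `j < n`, and GAD gives one more in the rest (a gadget
of the smaller graph is one of `F`).  The types `(p, q)` lie in a set of `(L+1)²` elements (`p, q ≤ L`), so
`2 K` of the `n` gadgets have the same type
(`Finset.exists_le_card_fiber_of_mul_le_card_of_maps_to`). -/
def SamStmt : Prop := ∀ (V : Type) [Fintype V] (F : SimpleGraph V) (U : Finset V) (K L : ℕ),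
  (∀ u v, F.Adj u v → u ∈ U) → U.Nonempty → L = len U.card →
  96 * U.card + 8 * K * (L + 1) ^ 2 * (2 * L + 1) ≤ e2 F →
  ∃ (p q : ℕ) (g : Fin (2 * K) → (V → V → ℤ) × (V → V → ℤ) × (V → V → ℤ)),
    (∀ i, Gad F L p q (g i)) ∧ ∀ i j, i ≠ j → ∀ u v, used (g i) u v → ¬ used (g j) u v

/-- COA (uses GAD, medium).  Coarse counts with short even cycles.
PROOF. Strong induction on `tau` (for all `F` with edges inside `U`).  If `tau ≤ len |U|` take `y = 0`,
`a = 0`.  Otherwise GAD gives `y1` with `sz y1 = 2 (p + 1)`, `p + 1` even and at most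
`len |U| + 1 ≤ tau`.  `F' = zer F y1` has `e2 F' = e2 F - 2 (p + 1)` (`y1` is supported on `F`), so the
hypothesis holds for `F'` and `tau - (p + 1)`; the function `y'` of `F'` has a support disjoint from
that of `y1`; take `y = y1 + y'`, `a = a' + p + 1`. -/
def CoaStmt : Prop := ∀ (V : Type) [Fintype V] (F : SimpleGraph V) (U : Finset V) (tau : ℕ),
  (∀ u v, F.Adj u v → u ∈ U) → U.Nonempty → 96 * U.card + 2 * tau ≤ e2 F →
  ∃ (y : V → V → ℤ) (a : ℕ), Lab F y ∧ (∀ v, bd y v = 0) ∧ sz y = 2 * a ∧ Even a ∧ a ≤ tau ∧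
    tau ≤ a + len U.card

/-- EXA (uses SAM COA, medium-strong).  Every even number.
PROOF. SAM with `K = L`: `2 L` disjoint gadgets of the type `(p, q)`; put `B = L (p + q) ≤ 2 L² ≤ D` (even).
Let `F1` be `F` without the used edges of all gadgets:
`e2 F1 ≥ e2 F - 2 L * 4 (2 L + 1) ≥ 96 |U| + 2 (D - B)`.  COA for `F1`, `tau = D - B`: `y0`, `a` even,
`0 ≤ D - B - a ≤ L`.  Let `D - B - a = 2 i`, `i ≤ L`.  Pair the gadgets: `(g (2 j), g (2 j + 1))`, `j < L`.  For
`j < i` add `y1` of the first and `y2` of the second (`2 (p + 1) + 2 (q + 1)` pairs), for `j ≥ i` add `y3` of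
the first (`2 (p + q)` pairs).  All supports are disjoint, so the sum `y` is a `Lab F`, its boundary is `0` and
`sz y = 2 a + 2 L (p + q) + 4 i = 2 D`. -/
def ExaStmt : Prop := ∀ (V : Type) [Fintype V] (F : SimpleGraph V) (U : Finset V) (D L : ℕ),
  (∀ u v, F.Adj u v → u ∈ U) → U.Nonempty → L = len U.card → Even D → 2 * L ^ 2 ≤ D →
  96 * U.card + 2 * D + 8 * L * (L + 1) ^ 2 * (2 * L + 1) ≤ e2 F →
  ∃ y : V → V → ℤ, Lab F y ∧ (∀ v, bd y v = 0) ∧ sz y = 2 * D

/-- NUM (no hypotheses, easy).  Numbers.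
PROOF. For `20001 ≤ n < 2^15` we have `Nat.log 2 n = 14`, `len n = 30`, and
`8 * 30 * 31² * 61 = 14069040 ≤ 1500 * 20001`, `1800 ≤ 20001`.  For `2^k ≤ n < 2^(k+1)`, `k ≥ 15`:
`len n = 2 k + 2`, and `8 (2k+2) (2k+3)² (4k+5) ≤ 1500 * 2^k`, `2 (2k+2)² ≤ 2^k` by induction on `k ≥ 15`. -/
def NumStmt : Prop := ∀ n : ℕ, 20001 ≤ n →
  8 * len n * (len n + 1) ^ 2 * (2 * len n + 1) ≤ 1500 * n ∧ 2 * (len n) ^ 2 ≤ n

open Pool.Agent.Helper51_Equitable in
/-- FN1 (no hypotheses, medium).  From `x` to a labelling.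
PROOF. `ℓ s(u, v) = (2 + x u v).toNat` (`Sym2.lift`).  `vertexSum G ℓ v = 2 dg G v + bd x v` (as integers), so
proper.  Let `n1, n2, n3` be the numbers of edges with `x = -1, 0, 1`.  Ordered pairs count every
edge twice: `2 n2 = 2 z`, `n1 + n2 + n3 = m`, and `∑ ∑ x = 0` says `n1 = n3`.  So `n2 = z = m - 2 ⌊(m+1)/3⌋` and
`n1 = n3 = ⌊(m+1)/3⌋`; the three numbers differ by at most one (`m` mod 3). -/
def Fn1Stmt : Prop := ∀ (V : Type) [Fintype V] (G : SimpleGraph V) (x : V → V → ℤ) (m z : ℕ),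
  Lab G x → (∀ u v, G.Adj u v → 2 * (dg G u : ℤ) + bd x u ≠ 2 * (dg G v : ℤ) + bd x v) →
  ∑ v, bd x v = 0 → e2 G = 2 * m → e2 G = sz x + 2 * z → z + 2 * ((m + 1) / 3) = m →
  ∃ ℓ : Sym2 V → ℕ, IsEquitableProper G 3 ℓ

open Pool.Agent.Helper51_Equitable in
/-- FIN (uses UNI EXA NUM FN1, medium-strong).  The theorem.
PROOF. UNI gives `x`.  `e2 G = 2 m` is even (swap).  If `m = 0`: FN1 with `x`, `z = 0` (`sz x = 0`).  Let
`m > 0`, `U` the set of vertices with a neighbour, `n = |U|`.  For `v ∈ U`: `cut G {v} = dg G v > 0`, so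
`dg G v ≥ 20000`; `U` contains `v` and its neighbours, so `n ≥ 20001`; `2 m = ∑ U dg ≥ 20000 n`.
`F = zer G x`: `e2 F = e2 G - sz x = 2 N0`, `100 N0 ≥ 37 m`; `∑ ∑ x = 0` gives `#(x = 1) = #(x = -1)`, so
`m - N0` is even (`2 m - 2 N0 = sz x = 2 * #(pairs with x = 1)`, and the number of pairs with `x = 1` is even by
symmetry).  Let `z = m - 2 ⌊(m+1)/3⌋` (so `3 z ≤ m + 2`, `3 z + 2 ≥ m`) and `D = N0 - z`: even, and
`D ≥ 0.37 m - (m + 2) / 3 ≥ 0.03 m ≥ n ≥ 2 L²` by NUM, `L = len n`.  EXA for `F`, `U`, `D`: its last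
condition says `96 n + 8 L (L+1)² (2L+1) ≤ 2 N0 - 2 D = 2 z`, true because `2 z ≥ 2 (m - 2) / 3 ≥ 6666 n - 2`
and NUM.  It gives `y`; `x' = x + y` is a `Lab G` with the same boundary and
`sz x' = sz x + 2 D = 2 m - 2 z`.  FN1. -/
def FinStmt : Prop := ∀ (V : Type) [Fintype V] (G : SimpleGraph V),
  (∀ W : Finset V, cut G W = 0 ∨ 20000 ≤ cut G W) → ∃ ℓ : Sym2 V → ℕ, IsEquitableProper G 3 ℓ

end Pool.Agent.HEC
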